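import Mathlib
import Pool.Agent.Results.MP_ea093d_al.InfiniteLattice

/-!
Every inclusive variety which contains the eight element Boolean semilattice has a chain of
inclusive subvarieties isomorphic to the real unit interval, so uncountably many of them.
-/

namespace Pool.Agent.Results.MP_999024_al.RealChain

open Pool.Agent.Results.MP_ea093d_al.InfiniteLattice

universe u

/-! ### The inclusions -/

/-- The product of `a + 1` cyclically consecutive letters of a `b`-cycle, starting at `i`. -/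
def win (a b i : ℕ) : FreeSemigroup ℕ :=
  ⟨i % b, (List.range a).map fun j => (i + (j + 1)) % b⟩

lemma mem_win {a b i x : ℕ} :
    x ∈ (win a b i).head :: (win a b i).tail ↔ ∃ j, j ≤ a ∧ x = (i + j) % b := by
  simp only [win, List.mem_cons, List.mem_map, List.mem_range]
  constructor
  · rintro (h | ⟨j, hj, h⟩)
    · exact ⟨0, Nat.zero_le _, by simpa using h⟩
    · exact ⟨j + 1, hj, h.symm⟩
  · rintro ⟨j, hj, h⟩
    rcases Nat.eq_zero_or_pos j with h0 | h0
    · left; simpa [h0] using h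
    · right
      exact ⟨j - 1, by omega, by rw [h, show j - 1 + 1 = j by omega]⟩

/-- The inclusion with parameters `a, b`. -/
def inc (a b : ℕ) : IdInclusion where
  word := FreeSemigroup.of 0 * FreeSemigroup.of a * FreeSemigroup.of (2 * a)
  set := {w | w = FreeSemigroup.of 0 * FreeSemigroup.of a ∨
    w = FreeSemigroup.of a * FreeSemigroup.of (2 * a) ∨
    w = FreeSemigroup.of 0 * FreeSemigroup.of (2 * a) ∨ ∃ i, w = win a b i}

/-- No winding. -/
lemma winding2 {r a b m : ℕ} (h : b * m < a * (2 * r + 1)) (h1 : 2 * a ≤ b) (h2 : b ≤ 3 * a)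
    (A : ℕ → Arc r) (p : ℕ → ZMod (2 * r + 1))
    (hA : ∀ i, A (i + b) = A i) (hp : ∀ i, p (i + b) = p i)
    (hmem : ∀ i j, j ≤ a → p i ∈ (A (i + j)).1)
    (hshort : ∀ i, ∀ x ∈ (A i).1, ∀ y ∈ (A i).1, disp x y ≤ m) :
    ((A 0).1 ∩ (A a).1 ∩ (A (2 * a)).1).Nonempty := by
  set d : ℕ → ℤ := fun i => disp (p i) (p (i + 1)) with hd
  have hsum : ∀ i t, t ≤ a → disp (p i) (p (i + t)) = ∑ j ∈ Finset.range t, d (i + j) := by
    intro i t
    induction t with
    | zero => intro _; simp [disp_self]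
    | succ t ih =>
      intro ht
      rw [Finset.sum_range_succ, ← ih (by omega)]
      have m1 : p i ∈ (A (i + a)).1 := hmem i a le_rfl
      have m2 : p (i + t) ∈ (A (i + a)).1 := by
        have := hmem (i + t) (a - t) (by omega)
        rwa [show i + t + (a - t) = i + a by omega] at this
      have m3 : p (i + (t + 1)) ∈ (A (i + a)).1 := by
        have := hmem (i + (t + 1)) (a - (t + 1)) (by omega)
        rwa [show i + (t + 1) + (a - (t + 1)) = i + a by omega] at this
      rw [(A (i + a)).2.1 _ m1 _ m2 _ m3]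
      rfl
  have hdper : ∀ i, d (i + b) = d i := by
    intro i
    simp only [hd]
    rw [hp i, show i + b + 1 = (i + 1) + b by ring, hp (i + 1)]
  set D : ℤ := ∑ i ∈ Finset.range b, d i with hD
  have hshift : ∀ j, ∑ i ∈ Finset.range b, d (i + j) = D := by
    intro j
    induction j with
    | zero => simp [hD]
    | succ j ih =>
      have e1 := Finset.sum_range_succ (fun i => d (i + j)) b
      have e2 := Finset.sum_range_succ' (fun i => d (i + j)) b
      have e3 : d (b + j) = d (0 + j) := by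
        rw [show b + j = j + b by ring, hdper j, zero_add]
      have e4 : ∑ i ∈ Finset.range b, d (i + (j + 1)) =
          ∑ i ∈ Finset.range b, d (i + 1 + j) := by
        apply Finset.sum_congr rfl
        intro i _
        rw [show i + (j + 1) = i + 1 + j by ring]
      rw [e4]
      linarith
  have haD : (a : ℤ) * D = ∑ i ∈ Finset.range b, disp (p i) (p (i + a)) := by
    calc (a : ℤ) * D = ∑ j ∈ Finset.range a, D := by simp
      _ = ∑ j ∈ Finset.range a, ∑ i ∈ Finset.range b, d (i + j) :=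
          Finset.sum_congr rfl (fun j _ => (hshift j).symm)
      _ = ∑ i ∈ Finset.range b, ∑ j ∈ Finset.range a, d (i + j) := Finset.sum_comm
      _ = ∑ i ∈ Finset.range b, disp (p i) (p (i + a)) :=
          Finset.sum_congr rfl (fun i _ => (hsum i a le_rfl).symm)
  have hin : ∀ i, p i ∈ (A (i + a)).1 ∧ p (i + a) ∈ (A (i + a)).1 := fun i =>
    ⟨hmem i a le_rfl, by simpa using hmem (i + a) 0 (Nat.zero_le _)⟩
  have hup : (a : ℤ) * D ≤ b * m := by
    rw [haD]
    calc ∑ i ∈ Finset.range b, disp (p i) (p (i + a))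
        ≤ ∑ i ∈ Finset.range b, (m : ℤ) :=
          Finset.sum_le_sum (fun i _ => hshort _ _ (hin i).1 _ (hin i).2)
      _ = b * m := by simp
  have hlo : -(b * m : ℤ) ≤ (a : ℤ) * D := by
    rw [haD]
    calc -(b * m : ℤ) = ∑ i ∈ Finset.range b, (-(m : ℤ)) := by simp
      _ ≤ ∑ i ∈ Finset.range b, disp (p i) (p (i + a)) :=
          Finset.sum_le_sum (fun i _ => by
            have h3 := hshort _ _ (hin i).2 _ (hin i).1
            rw [disp_swap] at h3
            linarith)
  have hcast : ((D : ℤ) : ZMod (2 * r + 1)) = 0 := by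
    rw [hD]
    push_cast
    have : ∀ i, ((d i : ℤ) : ZMod (2 * r + 1)) = p (i + 1) - p i := fun i => disp_cast _ _
    simp only [this]
    rw [Finset.sum_range_sub]
    have := hp 0
    rw [zero_add] at this
    rw [this, sub_self]
  have hdvd : ((2 * r + 1 : ℕ) : ℤ) ∣ D := (ZMod.intCast_zmod_eq_zero_iff_dvd D (2 * r + 1)).1 hcast
  have hD0 : D = 0 := by
    obtain ⟨e, he⟩ := hdvd
    have h' : (b : ℤ) * m < a * (2 * r + 1) := by exact_mod_cast h
    push_cast at he
    have hpos : (0 : ℤ) ≤ a * (2 * r + 1) := by positivity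
    have h3 : e < 1 := by
      by_contra hc
      push Not at hc
      have h4 : (a : ℤ) * (2 * r + 1) * 1 ≤ a * (2 * r + 1) * e :=
        mul_le_mul_of_nonneg_left hc hpos
      rw [he] at hup
      nlinarith
    have h5 : -1 < e := by
      by_contra hc
      push Not at hc
      have h4 : (a : ℤ) * (2 * r + 1) * e ≤ a * (2 * r + 1) * (-1) :=
        mul_le_mul_of_nonneg_left hc hpos
      rw [he] at hlo
      nlinarith
    have : e = 0 := by omega
    rw [he, this, mul_zero]
  have hA0 : A b = A 0 := by simpa using hA 0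
  have hp0 : p b = p 0 := by simpa using hp 0
  apply middle (A 0) (A a) (A (2 * a)) (p 0) (p a) (p (2 * a))
  · simpa using hmem 0 0 (Nat.zero_le _)
  · have := hmem (2 * a) (b - 2 * a) (by omega)
    rwa [show 2 * a + (b - 2 * a) = b by omega, hA0] at this
  · simpa using hmem 0 a le_rfl
  · simpa using hmem a 0 (Nat.zero_le _)
  · have := hmem a a le_rfl
    rwa [show a + a = 2 * a by ring] at this
  · simpa using hmem (2 * a) 0 (Nat.zero_le _)
  · have f1 := hsum 0 a le_rfl
    have f2 := hsum a a le_rfl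
    have f3 := hsum (2 * a) (b - 2 * a) (by omega)
    rw [show 2 * a + (b - 2 * a) = b by omega, hp0] at f3
    rw [show a + a = 2 * a by ring] at f2
    rw [zero_add] at f1
    have f4 : D = (∑ j ∈ Finset.range a, d j + ∑ j ∈ Finset.range a, d (a + j)) +
        ∑ j ∈ Finset.range (b - 2 * a), d (2 * a + j) := by
      rw [hD]
      conv_lhs => rw [show b = (a + a) + (b - 2 * a) by omega]
      rw [Finset.sum_range_add, Finset.sum_range_add, show a + a = 2 * a by ring]
    simp only [zero_add] at f1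
    rw [f1, f2, f3]
    linarith

/-- The arcs with at most `m + 1` points. -/
def Short (r m : ℕ) (A : Arc r) : Prop := ∀ x ∈ A.1, ∀ y ∈ A.1, disp x y ≤ m

lemma short_eval {r m : ℕ} (φ : FreeSemigroup ℕ →ₙ* Arc r)
    (h : ∀ x, Short r m (φ (FreeSemigroup.of x))) (w : FreeSemigroup ℕ) : Short r m (φ w) := by
  intro x hx y hy
  exact h w.head x ((mem_eval φ x w).1 hx _ (by simp)) y ((mem_eval φ y w).1 hy _ (by simp))

lemma inc_holds {r a b m : ℕ} (h : b * m < a * (2 * r + 1)) (h1 : 2 * a < b) (h2 : b ≤ 3 * a)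
    (φ : FreeSemigroup ℕ →ₙ* Arc r) (hφ : ∀ x, Short r m (φ (FreeSemigroup.of x))) :
    ∃ v ∈ (inc a b).set, φ (inc a b).word = φ v := by
  by_cases hne : (φ (inc a b).word).1.Nonempty
  · have hb := breadth (φ (FreeSemigroup.of 0)) (φ (FreeSemigroup.of a))
      (φ (FreeSemigroup.of (2 * a))) (by simpa [inc] using hne)
    rcases hb with hb | hb | hb
    · exact ⟨_, Or.inl rfl, by simpa [inc] using hb⟩
    · exact ⟨_, Or.inr (Or.inl rfl), by simpa [inc] using hb⟩
    · exact ⟨_, Or.inr (Or.inr (Or.inl rfl)), by simpa [inc] using hb⟩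
  · by_contra hcon
    push Not at hcon
    have hwin : ∀ i, ∃ q, q ∈ (φ (win a b i)).1 := by
      intro i
      by_contra hc
      apply hcon (win a b i) (Or.inr (Or.inr (Or.inr ⟨i, rfl⟩)))
      apply Subtype.ext
      rw [Set.not_nonempty_iff_eq_empty.1 hne]
      symm
      apply Set.not_nonempty_iff_eq_empty.1
      rintro ⟨q, hq⟩
      exact hc ⟨q, hq⟩
    choose p hp using hwin
    have hw := winding2 (r := r) (a := a) (b := b) (m := m) h h1.le h2
      (fun i => φ (FreeSemigroup.of (i % b)))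
      (fun i => p (i % b))
      (fun i => by simp only [Nat.add_mod_right])
      (fun i => by simp only [Nat.add_mod_right])
      (fun i j hj => by
        have := (mem_eval φ _ _).1 (hp (i % b)) ((i % b + j) % b) (mem_win.2 ⟨j, hj, rfl⟩)
        simpa only [Nat.mod_add_mod] using this)
      (fun i x hx y hy => hφ _ x hx y hy)
    apply hne
    obtain ⟨q, ⟨h3, h4⟩, h5⟩ := hw
    refine ⟨q, ?_⟩
    have e0 : 0 % b = 0 := Nat.zero_mod b
    have e1 : a % b = a := Nat.mod_eq_of_lt (by omega)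
    have e2 : (2 * a) % b = 2 * a := Nat.mod_eq_of_lt (by omega)
    simp only [e0] at h3
    simp only [e1] at h4
    simp only [e2] at h5
    rw [inc, map_mul, map_mul, arc_mul_val, arc_mul_val]
    exact ⟨⟨h3, h4⟩, h5⟩

/-! ### The violating assignment -/

/-- The arc of `m + 1` points ending at `e`. -/
def arcE (r m : ℕ) (hm : m ≤ r) (e : ℕ) : Arc r := by
  refine ⟨{q | ∃ t : ℕ, t ≤ m ∧ q = (e : ZMod (2 * r + 1)) - t}, ?_, ?_⟩
  · rintro p ⟨a, ha, rfl⟩ q ⟨b, hb, rfl⟩ t ⟨c, hc, rfl⟩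
    have h1 : disp ((e : ZMod (2 * r + 1)) - (a : ZMod (2 * r + 1))) ((e : ZMod (2 * r + 1)) - (b : ZMod (2 * r + 1))) = (a : ℤ) - b := by
      apply disp_eq
      · omega
      · omega
      · push_cast; ring
    have h2 : disp ((e : ZMod (2 * r + 1)) - (b : ZMod (2 * r + 1))) ((e : ZMod (2 * r + 1)) - (c : ZMod (2 * r + 1))) = (b : ℤ) - c := by
      apply disp_eq
      · omega
      · omega
      · push_cast; ring
    have h3 : disp ((e : ZMod (2 * r + 1)) - (a : ZMod (2 * r + 1))) ((e : ZMod (2 * r + 1)) - (c : ZMod (2 * r + 1))) = (a : ℤ) - c := by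
      apply disp_eq
      · omega
      · omega
      · push_cast; ring
    rw [h1, h2, h3]; ring
  · rintro p ⟨a, ha, rfl⟩ t ⟨c, hc, rfl⟩ q h
    have h3 : disp ((e : ZMod (2 * r + 1)) - (a : ZMod (2 * r + 1))) ((e : ZMod (2 * r + 1)) - (c : ZMod (2 * r + 1))) = (a : ℤ) - c := by
      apply disp_eq
      · omega
      · omega
      · push_cast; ring
    rw [h3] at h
    have hq := disp_cast ((e : ZMod (2 * r + 1)) - (a : ZMod (2 * r + 1))) q
    set x := disp ((e : ZMod (2 * r + 1)) - (a : ZMod (2 * r + 1))) q with hx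
    have hnn : 0 ≤ (a : ℤ) - x := by omega
    refine ⟨((a : ℤ) - x).toNat, by omega, ?_⟩
    have : ((((a : ℤ) - x).toNat : ℕ) : ZMod (2 * r + 1)) = ((((a : ℤ) - x : ℤ)) : ZMod (2 * r + 1)) := by
      rw [← Int.toNat_of_nonneg hnn]
      simp
    rw [this]
    push_cast
    rw [hq]
    ring

lemma short_arcE {r m : ℕ} (hm : m ≤ r) (e : ℕ) : Short r m (arcE r m hm e) := by
  rintro x ⟨a, ha, rfl⟩ y ⟨c, hc, rfl⟩
  have h3 : disp ((e : ZMod (2 * r + 1)) - (a : ZMod (2 * r + 1))) ((e : ZMod (2 * r + 1)) - (c : ZMod (2 * r + 1))) = (a : ℤ) - c := by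
    apply disp_eq
    · omega
    · omega
    · push_cast; ring
  rw [h3]
  omega

/-- The violating homomorphism. -/
def badHom (r m : ℕ) (hm : m ≤ r) : FreeSemigroup ℕ →ₙ* Arc r :=
  FreeSemigroup.lift (arcE r m hm)

lemma badHom_of {r m : ℕ} (hm : m ≤ r) (x : ℕ) :
    badHom r m hm (FreeSemigroup.of x) = arcE r m hm x := FreeSemigroup.lift_of _ _

lemma inc_fails {r m : ℕ} (hm : m ≤ r) (hm1 : 1 ≤ m) (h3 : 2 * r + 1 ≤ 3 * m)
    {v : FreeSemigroup ℕ} (hv : v ∈ (inc m (2 * r + 1)).set) :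
    badHom r m hm (inc m (2 * r + 1)).word ≠ badHom r m hm v := by
  have hzero : ¬ (badHom r m hm (inc m (2 * r + 1)).word).1.Nonempty := by
    rintro ⟨q, hq⟩
    rw [inc, map_mul, map_mul, badHom_of, badHom_of, badHom_of] at hq
    obtain ⟨⟨⟨a, ha, ea⟩, ⟨b, hb, eb⟩⟩, ⟨c, hc, ec⟩⟩ := hq
    have h1 : (((m + a : ℕ)) : ZMod (2 * r + 1)) = ((b : ℕ) : ZMod (2 * r + 1)) := by
      have := ea.symm.trans eb
      push_cast at this ⊢
      linear_combination -this
    have h2 : (((2 * m + a : ℕ)) : ZMod (2 * r + 1)) = ((c : ℕ) : ZMod (2 * r + 1)) := by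
      have := ea.symm.trans ec
      push_cast at this ⊢
      linear_combination -this
    rw [ZMod.natCast_eq_natCast_iff', Nat.mod_eq_of_lt (show m + a < 2 * r + 1 by omega),
      Nat.mod_eq_of_lt (show b < 2 * r + 1 by omega)] at h1
    have ha0 : a = 0 := by omega
    subst ha0
    rw [ZMod.natCast_eq_natCast_iff', Nat.mod_eq_of_lt (show 2 * m + 0 < 2 * r + 1 by omega),
      Nat.mod_eq_of_lt (show c < 2 * r + 1 by omega)] at h2
    omega
  intro h
  apply hzero
  rw [h]
  have hr0 := two_r_one r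
  rcases hv with rfl | rfl | rfl | ⟨i, rfl⟩
  · rw [map_mul, badHom_of, badHom_of]
    exact ⟨0, ⟨0, by omega, by simp⟩, ⟨m, le_rfl, by simp⟩⟩
  · rw [map_mul, badHom_of, badHom_of]
    exact ⟨m, ⟨0, by omega, by simp⟩, ⟨m, le_rfl, by push_cast; ring⟩⟩
  · rw [map_mul, badHom_of, badHom_of]
    refine ⟨((2 * m : ℕ) : ZMod (2 * r + 1)), ⟨2 * r + 1 - 2 * m, by omega, ?_⟩,
      ⟨0, by omega, by simp⟩⟩
    have h4 : (((2 * m : ℕ) + (2 * r + 1 - 2 * m : ℕ) : ℕ) : ZMod (2 * r + 1)) =
        ((2 * r + 1 : ℕ) : ZMod (2 * r + 1)) := by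
      congr 1; omega
    rw [Nat.cast_add, ZMod.natCast_self] at h4
    rw [Nat.cast_zero]
    linear_combination h4
  · refine ⟨(i : ZMod (2 * r + 1)), ?_⟩
    rw [mem_eval]
    intro x hx
    obtain ⟨j, hj, rfl⟩ := mem_win.1 hx
    rw [badHom_of]
    refine ⟨j, hj, ?_⟩
    rw [ZMod.natCast_mod]
    push_cast
    ring

/-! ### The semilattices -/

/-- The semilattice of arcs with at most `m + 1` points. -/
def ArcS (r m : ℕ) : Subsemigroup (Arc r) where
  carrier := {A | Short r m A}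
  mul_mem' := fun {_ _} hA _ x hx y hy => hA x hx.1 y hy.1

/-- The same semilattice in an arbitrary universe. -/
abbrev UArcS (r m : ℕ) : Type u := ULift.{u} (ArcS r m)

lemma uarcs_satisfies (r m : ℕ) (i : IdInclusion) :
    Satisfies (UArcS.{u} r m) i ↔ ∀ φ : FreeSemigroup ℕ →ₙ* ArcS r m,
      ∃ v ∈ i.set, φ i.word = φ v := by
  constructor
  · intro h φ
    obtain ⟨v, hv, e⟩ := h ((MulEquiv.ulift (α := ArcS r m)).symm.toMulHom.comp φ)
    exact ⟨v, hv, (MulEquiv.ulift (α := ArcS r m)).symm.injective e⟩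
  · intro h φ
    obtain ⟨v, hv, e⟩ := h ((MulEquiv.ulift (α := ArcS r m)).toMulHom.comp φ)
    exact ⟨v, hv, (MulEquiv.ulift (α := ArcS r m)).injective e⟩

lemma uarcs_generated (r m : ℕ) : generatedBy.{u} Cube (UArcS.{u} r m) := by
  intro i hi
  rw [uarcs_satisfies]
  intro φ
  obtain ⟨v, hv, e⟩ := arc_generated r i hi ((MulMemClass.subtype (ArcS r m)).comp φ)
  exact ⟨v, hv, Subtype.ext e⟩

lemma uarcs_holds {r a b m : ℕ} (h : b * m < a * (2 * r + 1)) (h1 : 2 * a < b) (h2 : b ≤ 3 * a) :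
    Satisfies (UArcS.{u} r m) (inc a b) := by
  rw [uarcs_satisfies]
  intro φ
  obtain ⟨v, hv, e⟩ := inc_holds h h1 h2 ((MulMemClass.subtype (ArcS r m)).comp φ)
    (fun x => (φ (FreeSemigroup.of x)).2)
  exact ⟨v, hv, Subtype.ext e⟩

lemma uarcs_fails {r m : ℕ} (hm : m ≤ r) (hm1 : 1 ≤ m) (h3 : 2 * r + 1 ≤ 3 * m) :
    ¬ Satisfies (UArcS.{u} r m) (inc m (2 * r + 1)) := by
  rw [uarcs_satisfies]
  intro h
  obtain ⟨v, hv, e⟩ := h (FreeSemigroup.lift fun x =>
    (⟨arcE r m hm x, short_arcE hm x⟩ : ArcS r m))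
  have key : ∀ w : FreeSemigroup ℕ, ((FreeSemigroup.lift (fun x =>
      (⟨arcE r m hm x, short_arcE hm x⟩ : ArcS r m)) w : ArcS r m) : Arc r) =
      badHom r m hm w := by
    intro w
    induction w using FreeSemigroup.recOnMul with
    | ih1 x => rw [FreeSemigroup.lift_of, badHom_of]
    | ih2 x y h1 h2 => rw [map_mul, map_mul, ← h1, ← h2]; rfl
  apply inc_fails hm hm1 h3 hv
  rw [← key, ← key, e]

/-! ### The chain -/

/-- `K` is contained in `L`. -/
def Sub (K L : SemigroupClass.{u}) : Prop := ∀ (T : Type u) [Semigroup T], K T → L T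

/-- The subvariety of `V` with parameter `c`. -/
def cut (V : SemigroupClass.{u}) (c : ℝ) : SemigroupClass.{u} :=
  fun T _ => V T ∧ ∀ a b : ℕ, 2 * a < b → b ≤ 3 * a → c * b ≤ a → Satisfies T (inc a b)

lemma exists_frac {c d : ℝ} (hc : 1 / 3 ≤ c) (hcd : c < d) (hd : d ≤ 1 / 2) :
    ∃ r m : ℕ, m ≤ r ∧ 1 ≤ m ∧ 2 * r + 1 ≤ 3 * m ∧ c * (2 * r + 1 : ℕ) ≤ m ∧
      (m : ℝ) < d * (2 * r + 1 : ℕ) := by
  obtain ⟨r, hr⟩ := exists_nat_gt (1 / (d - c))
  have hdc : 0 < d - c := by linarith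
  have hr1 : 1 < (d - c) * r := by
    rw [div_lt_iff₀ hdc] at hr
    linarith
  have hr0 : (0 : ℝ) ≤ r := Nat.cast_nonneg r
  set m : ℕ := ⌈c * (2 * r + 1 : ℕ)⌉₊ with hm
  have hcpos : 0 ≤ c * (2 * r + 1 : ℕ) := by positivity
  have h1 : c * (2 * r + 1 : ℕ) ≤ m := Nat.le_ceil _
  have h2 : (m : ℝ) < c * (2 * r + 1 : ℕ) + 1 := Nat.ceil_lt_add_one hcpos
  push_cast at h1 h2
  have h3 : (m : ℝ) < d * (2 * r + 1) := by nlinarith
  have h4 : (m : ℝ) < 1 / 2 * (2 * r + 1) := by nlinarith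
  have h5 : (2 * m : ℝ) < 2 * r + 1 := by linarith
  have h6 : 2 * m < 2 * r + 1 := by exact_mod_cast h5
  have h7 : (2 * r + 1 : ℝ) ≤ 3 * m := by nlinarith
  have h8 : 2 * r + 1 ≤ 3 * m := by exact_mod_cast h7
  refine ⟨r, m, by omega, by omega, h8, ?_, ?_⟩
  · push_cast; exact h1
  · push_cast; exact h3

theorem result (V : SemigroupClass.{u}) (hV : IsInclusiveVariety V)
    (hcube : V (ULift.{u} Cube)) :
    (∃ F : Set.Icc (0 : ℝ) 1 → SemigroupClass.{u},
      (∀ x, IsInclusiveVariety (F x) ∧ Sub (F x) V) ∧ ∀ x y, x ≤ y ↔ Sub (F x) (F y)) ∧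
    ¬ {K : SemigroupClass.{u} | IsInclusiveVariety K ∧ Sub K V}.Countable := by
  have hgen : ∀ (T : Type u) [Semigroup T], generatedBy Cube T → V T := by
    obtain ⟨E, hE⟩ := hV
    intro T _ hT
    rw [hE]
    intro i hi
    apply hT
    have h1 := (hE (ULift.{u} Cube)).1 hcube i hi
    intro φ
    obtain ⟨v, hv, e⟩ := h1 ((MulEquiv.ulift (α := Cube)).symm.toMulHom.comp φ)
    exact ⟨v, hv, (MulEquiv.ulift (α := Cube)).symm.injective e⟩
  have hmain : ∃ F : Set.Icc (0 : ℝ) 1 → SemigroupClass.{u},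
      (∀ x, IsInclusiveVariety (F x) ∧ Sub (F x) V) ∧ ∀ x y, x ≤ y ↔ Sub (F x) (F y) := by
    refine ⟨fun x => cut V (1 / 3 + x / 6), ?_, ?_⟩
    · intro x
      refine ⟨?_, fun T _ h => h.1⟩
      obtain ⟨E, hE⟩ := hV
      refine ⟨E ∪ {i | ∃ a b : ℕ, 2 * a < b ∧ b ≤ 3 * a ∧ (1 / 3 + (x : ℝ) / 6) * b ≤ a ∧
        i = inc a b}, ?_⟩
      intro T _
      constructor
      · rintro ⟨h1, h2⟩ i (hi | ⟨a, b, h3, h4, h5, rfl⟩)
        · exact (hE T).1 h1 i hi
        · exact h2 a b h3 h4 h5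
      · intro h
        exact ⟨(hE T).2 (fun i hi => h i (Or.inl hi)),
          fun a b h3 h4 h5 => h _ (Or.inr ⟨a, b, h3, h4, h5, rfl⟩)⟩
    · intro x y
      constructor
      · intro hxy T _ h
        refine ⟨h.1, fun a b h3 h4 h5 => h.2 a b h3 h4 (le_trans ?_ h5)⟩
        have hxy' : (x : ℝ) ≤ y := hxy
        apply mul_le_mul_of_nonneg_right _ (Nat.cast_nonneg b)
        linarith
      · intro h
        by_contra hlt
        push Not at hlt
        have hlt' : (y : ℝ) < x := hlt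
        have hy0 := y.2.1
        have hx1 := x.2.2
        obtain ⟨r, m, h1, h2, h3, h4, h5⟩ := exists_frac (c := 1 / 3 + (y : ℝ) / 6)
          (d := 1 / 3 + (x : ℝ) / 6) (by linarith) (by linarith) (by linarith)
        have h6 : cut V (1 / 3 + (x : ℝ) / 6) (UArcS.{u} r m) := by
          refine ⟨hgen _ (uarcs_generated r m), ?_⟩
          intro a b h7 h8 h9
          apply uarcs_holds _ h7 h8
          have hb : (0 : ℝ) < b := by
            have : 0 < b := by omega
            exact_mod_cast this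
          have h10 : (b : ℝ) * m < a * (2 * r + 1 : ℕ) := by
            have hr : (0 : ℝ) < (2 * r + 1 : ℕ) := by positivity
            calc (b : ℝ) * m < b * ((1 / 3 + (x : ℝ) / 6) * (2 * r + 1 : ℕ)) :=
                  mul_lt_mul_of_pos_left h5 hb
              _ = ((1 / 3 + (x : ℝ) / 6) * b) * (2 * r + 1 : ℕ) := by ring
              _ ≤ a * (2 * r + 1 : ℕ) := mul_le_mul_of_nonneg_right h9 hr.le
          exact_mod_cast h10
        have h7 := h _ h6
        exact uarcs_fails h1 h2 h3 (h7.2 m (2 * r + 1) (by omega) h3 h4)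
  refine ⟨hmain, ?_⟩
  obtain ⟨F, hF1, hF2⟩ := hmain
  intro hcount
  have hinj : Function.Injective F := by
    intro x y hxy
    apply le_antisymm
    · rw [hF2, hxy]; exact fun T _ h => h
    · rw [hF2, hxy]; exact fun T _ h => h
  have h1 : (Set.range F).Countable := hcount.mono (by
    rintro _ ⟨x, rfl⟩
    exact hF1 x)
  have h2 : Countable (Set.Icc (0 : ℝ) 1) := by
    have h3 : Countable (Set.range F) := h1.to_subtype
    exact Function.Injective.countable (f := fun x => (⟨F x, x, rfl⟩ : Set.range F))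
      (fun x y hxy => hinj (congrArg Subtype.val hxy))
  have h3 : (Set.Icc (0 : ℝ) 1).Countable := Set.to_countable _
  have h4 := Cardinal.le_aleph0_iff_set_countable.2 h3
  rw [Cardinal.mk_Icc_real zero_lt_one] at h4
  exact absurd h4 (not_le.2 Cardinal.aleph0_lt_continuum)

end Pool.Agent.Results.MP_999024_al.RealChain
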