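import Mathlib
import Pool.Agent.Results.MP_999024_al.RealChain

/-!
Inclusive varieties generated by semilattices with identity: the lattice of inclusive subvarieties
is countable if and only if it is finite, if and only if all generators have breadth at most two.
-/

namespace Pool.Agent.Results.MP_999024_al.Dichotomy

open Pool.Agent.Results.MP_ea093d_al.InfiniteLattice
open Pool.Agent.Results.MP_999024_al.RealChain

universe u

/-! ### Evaluation of words in semilattices -/

lemma mem_content (x : ℕ) (y : FreeSemigroup ℕ) (a : ℕ) :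
    a ∈ (FreeSemigroup.of x * y).head :: (FreeSemigroup.of x * y).tail ↔
      a = x ∨ a ∈ y.head :: y.tail := by
  simp [FreeSemigroup.head_mul, FreeSemigroup.tail_mul]

section eval

variable {T : Type*} [CommSemigroup T]

lemma absorb (hi : ∀ x : T, x * x = x) (φ : FreeSemigroup ℕ →ₙ* T) (w : FreeSemigroup ℕ) :
    ∀ a ∈ w.head :: w.tail, φ (FreeSemigroup.of a) * φ w = φ w := by
  induction w using FreeSemigroup.recOnMul with
  | ih1 x =>
    intro a ha
    have : a = x := by simpa using ha
    rw [this, hi]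
  | ih2 x y h1 h2 =>
    intro a ha
    rw [mem_content] at ha
    rw [map_mul]
    rcases ha with ha | ha
    · rw [ha, ← mul_assoc, hi]
    · rw [mul_left_comm, h2 a ha]

lemma above (φ : FreeSemigroup ℕ →ₙ* T) (t : T) (w : FreeSemigroup ℕ) :
    (∀ a ∈ w.head :: w.tail, φ (FreeSemigroup.of a) * t = t) → φ w * t = t := by
  induction w using FreeSemigroup.recOnMul with
  | ih1 x => intro h; exact h x (by simp)
  | ih2 x y h1 h2 =>
    intro h
    rw [map_mul, mul_assoc, h2 ?_, h x (by simp)]
    intro a ha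
    apply h a
    rw [mem_content]
    exact Or.inr ha

lemma two_letters (hi : ∀ x : T, x * x = x)
    (hb : ∀ x y z : T, x * y * z = x * y ∨ x * y * z = y * z ∨ x * y * z = x * z)
    (φ : FreeSemigroup ℕ →ₙ* T) (w : FreeSemigroup ℕ) :
    ∃ a ∈ w.head :: w.tail, ∃ b ∈ w.head :: w.tail,
      φ w = φ (FreeSemigroup.of a) * φ (FreeSemigroup.of b) := by
  induction w using FreeSemigroup.recOnMul with
  | ih1 x => exact ⟨x, by simp, x, by simp, (hi _).symm⟩
  | ih2 x y h1 h2 =>
    obtain ⟨a, ha, b, hb', e⟩ := h2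
    have hhead : x ∈ (FreeSemigroup.of x * y).head :: (FreeSemigroup.of x * y).tail := by simp
    have htail : ∀ a, a ∈ y.head :: y.tail →
        a ∈ (FreeSemigroup.of x * y).head :: (FreeSemigroup.of x * y).tail := by
      intro a ha
      simp only [FreeSemigroup.head_mul, FreeSemigroup.tail_mul]
      exact List.mem_cons_of_mem _ (List.mem_append_right _ ha)
    rcases hb (φ (FreeSemigroup.of x)) (φ (FreeSemigroup.of a)) (φ (FreeSemigroup.of b)) with
      h | h | h
    · exact ⟨x, hhead, a, htail a ha, by rw [map_mul, e, ← mul_assoc, h]⟩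
    · exact ⟨a, htail a ha, b, htail b hb', by rw [map_mul, e, ← mul_assoc, h]⟩
    · exact ⟨x, hhead, b, htail b hb', by rw [map_mul, e, ← mul_assoc, h]⟩

end eval

/-! ### Types of elements -/

/-- The level of an element of a semilattice. -/
def Lev {T : Type*} [Semigroup T] (t : T) : ℕ → Prop
  | 0 => True
  | 1 => ∃ y, y * t = t ∧ y ≠ t
  | 2 => ∃ x y, x * t = t ∧ y * t = t ∧ x ≠ t ∧ y ≠ t ∧ x * y = t
  | _ => ∃ x y z, x * t = t ∧ y * t = t ∧ z * t = t ∧ x * y = t ∧ x * z ≠ t ∧ y * z ≠ t

section types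

variable {T : Type*} [CommSemigroup T]

lemma lev32 {t : T} (h : Lev t 3) : Lev t 2 := by
  obtain ⟨x, y, z, hx, hy, hz, hxy, hxz, hyz⟩ := h
  refine ⟨x, y, hx, hy, ?_, ?_, hxy⟩
  · rintro rfl
    exact hxz (by rw [mul_comm]; exact hz)
  · rintro rfl
    exact hyz (by rw [mul_comm]; exact hz)

lemma lev21 {t : T} (h : Lev t 2) : Lev t 1 := by
  obtain ⟨x, y, hx, hy, hx', hy', hxy⟩ := h
  exact ⟨x, hx, hx'⟩

end types

open Classical in
lemma build {T' T : Type*} [CommSemigroup T'] [CommSemigroup T] (hi' : ∀ x : T', x * x = x)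
    (hi : ∀ x : T, x * x = x) (φ : FreeSemigroup ℕ →ₙ* T') (w0 : FreeSemigroup ℕ)
    (W : Set (FreeSemigroup ℕ)) (hW : ∀ v ∈ W, φ w0 ≠ φ v) (t : T)
    (hout : (∃ y, y * φ w0 ≠ φ w0) → ∃ y, y * t ≠ t) (g : ℕ → T)
    (g1 : ∀ a, φ (FreeSemigroup.of a) * φ w0 = φ w0 → φ (FreeSemigroup.of a) ≠ φ w0 →
      g a * t = t)
    (g2 : ∀ w : FreeSemigroup ℕ,
      (∀ a ∈ w.head :: w.tail, φ (FreeSemigroup.of a) * φ w0 = φ w0) →
      (∀ a ∈ w.head :: w.tail, ∀ b ∈ w.head :: w.tail,
        φ (FreeSemigroup.of a) * φ (FreeSemigroup.of b) ≠ φ w0) →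
      ∃ s, s * t = t ∧ s ≠ t ∧ ∀ a ∈ w.head :: w.tail, g a * s = s)
    (g3 : (∃ a ∈ w0.head :: w0.tail, φ (FreeSemigroup.of a) = φ w0) ∨
      ∃ a ∈ w0.head :: w0.tail, ∃ b ∈ w0.head :: w0.tail, φ (FreeSemigroup.of a) ≠ φ w0 ∧
        φ (FreeSemigroup.of b) ≠ φ w0 ∧ g a * g b = t) :
    ∃ ψ : FreeSemigroup ℕ →ₙ* T, ∀ v ∈ W, ψ w0 ≠ ψ v := by
  obtain ⟨o, ho⟩ : ∃ o : T, (∃ y, y * φ w0 ≠ φ w0) → o * t ≠ t := by
    by_cases h : ∃ y, y * φ w0 ≠ φ w0
    · obtain ⟨y, hy⟩ := hout h
      exact ⟨y, fun _ => hy⟩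
    · exact ⟨t, fun h' => absurd h' h⟩
  let f : ℕ → T := fun a =>
    if φ (FreeSemigroup.of a) * φ w0 = φ w0 then
      if φ (FreeSemigroup.of a) = φ w0 then t else g a
    else o
  let ψ : FreeSemigroup ℕ →ₙ* T := FreeSemigroup.lift f
  have hof : ∀ a, ψ (FreeSemigroup.of a) = f a := fun a => FreeSemigroup.lift_of _ _
  have hf1 : ∀ a, φ (FreeSemigroup.of a) * φ w0 = φ w0 → φ (FreeSemigroup.of a) = φ w0 →
      f a = t := by
    intro a h1 h2
    simp only [f]
    rw [if_pos h1, if_pos h2]
  have hf2 : ∀ a, φ (FreeSemigroup.of a) * φ w0 = φ w0 → φ (FreeSemigroup.of a) ≠ φ w0 →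
      f a = g a := by
    intro a h1 h2
    simp only [f]
    rw [if_pos h1, if_neg h2]
  have hf3 : ∀ a, φ (FreeSemigroup.of a) * φ w0 ≠ φ w0 → f a = o := by
    intro a h1
    simp only [f]
    rw [if_neg h1]
  have habs := absorb hi' φ w0
  have hψabs := absorb hi ψ w0
  have hup : ψ w0 * t = t := by
    apply above
    intro a ha
    rw [hof]
    by_cases h : φ (FreeSemigroup.of a) = φ w0
    · rw [hf1 a (habs a ha) h, hi]
    · rw [hf2 a (habs a ha) h]
      exact g1 a (habs a ha) h
  have hdown : t * ψ w0 = ψ w0 := by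
    rcases g3 with ⟨a, ha, h⟩ | ⟨a, ha, b, hb, h1, h2, h3⟩
    · have h4 := hψabs a ha
      rwa [hof, hf1 a (habs a ha) h] at h4
    · have h4 := hψabs a ha
      have h5 := hψabs b hb
      rw [hof, hf2 a (habs a ha) h1] at h4
      rw [hof, hf2 b (habs b hb) h2] at h5
      rw [← h3, mul_assoc, h5, h4]
  have hψ : ψ w0 = t := by
    rw [← hdown, mul_comm]
    exact hup
  refine ⟨ψ, fun v hv heq => ?_⟩
  rw [hψ] at heq
  have hne := hW v hv
  by_cases hall : ∀ a ∈ v.head :: v.tail, φ (FreeSemigroup.of a) * φ w0 = φ w0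
  · have hφv : φ v * φ w0 = φ w0 := above φ _ v hall
    have hpair : ∀ a ∈ v.head :: v.tail, ∀ b ∈ v.head :: v.tail,
        φ (FreeSemigroup.of a) * φ (FreeSemigroup.of b) ≠ φ w0 := by
      intro a ha b hb h
      apply hne
      have h1 := absorb hi' φ v a ha
      have h2 := absorb hi' φ v b hb
      have h3 : φ w0 * φ v = φ v := by rw [← h, mul_assoc, h2, h1]
      rw [← h3, mul_comm, hφv]
    obtain ⟨s, hs1, hs2, hs3⟩ := g2 v hall hpair
    have h4 : ψ v * s = s := by
      apply above
      intro a ha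
      have hane : φ (FreeSemigroup.of a) ≠ φ w0 := by
        intro h
        apply hpair a ha a ha
        rw [hi', h]
      rw [hof, hf2 a (hall a ha) hane]
      exact hs3 a ha
    rw [← heq, mul_comm, hs1] at h4
    exact hs2 h4.symm
  · push Not at hall
    obtain ⟨a, ha, hane⟩ := hall
    have h1 := absorb hi ψ v a ha
    rw [hof, hf3 a hane, ← heq] at h1
    exact ho ⟨_, hane⟩ h1

open Classical in
lemma transfer {T' T : Type*} [CommSemigroup T'] [CommSemigroup T] (hi' : ∀ x : T', x * x = x)
    (hb : ∀ x y z : T', x * y * z = x * y ∨ x * y * z = y * z ∨ x * y * z = x * z)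
    (hi : ∀ x : T, x * x = x) (φ : FreeSemigroup ℕ →ₙ* T') (w0 : FreeSemigroup ℕ)
    (W : Set (FreeSemigroup ℕ)) (hW : ∀ v ∈ W, φ w0 ≠ φ v) (t : T)
    (hout : (∃ y, y * φ w0 ≠ φ w0) → ∃ y, y * t ≠ t)
    (h1 : Lev (φ w0) 1 → Lev t 1) (h2 : Lev (φ w0) 2 → Lev t 2)
    (h3 : Lev (φ w0) 3 → Lev t 3) :
    ∃ ψ : FreeSemigroup ℕ →ₙ* T, ∀ v ∈ W, ψ w0 ≠ ψ v := by
  by_cases hA : ∃ a ∈ w0.head :: w0.tail, φ (FreeSemigroup.of a) = φ w0
  · by_cases hL : Lev (φ w0) 1
    · obtain ⟨y, hy1, hy2⟩ := h1 hL
      exact build hi' hi φ w0 W hW t hout (fun _ => y) (fun _ _ _ => hy1)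
        (fun w _ _ => ⟨y, hy1, hy2, fun _ _ => hi y⟩) (Or.inl hA)
    · refine build hi' hi φ w0 W hW t hout (fun _ => t) (fun _ _ _ => hi t)
        (fun w hw1 hw2 => ?_) (Or.inl hA)
      exfalso
      apply hL
      refine ⟨φ (FreeSemigroup.of w.head), hw1 _ (by simp), fun h => ?_⟩
      apply hw2 w.head (by simp) w.head (by simp)
      rw [hi', h]
  · obtain ⟨a, ha, b, hb', e⟩ := two_letters hi' hb φ w0
    have habs := absorb hi' φ w0
    have hane : φ (FreeSemigroup.of a) ≠ φ w0 := fun h => hA ⟨a, ha, h⟩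
    have hbne : φ (FreeSemigroup.of b) ≠ φ w0 := fun h => hA ⟨b, hb', h⟩
    have hL2 : Lev (φ w0) 2 := ⟨_, _, habs a ha, habs b hb', hane, hbne, e.symm⟩
    by_cases hL3 : Lev (φ w0) 3
    · obtain ⟨x, y, z, hx, hy, hz, hxy, hxz, hyz⟩ := h3 hL3
      have hab : a ≠ b := by
        rintro rfl
        rw [hi'] at e
        exact hane e.symm
      refine build hi' hi φ w0 W hW t hout
        (fun c => if c = a then x else if c = b then y else z) ?_ ?_ ?_
      · intro c _ _
        split_ifs
        · exact hx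
        · exact hy
        · exact hz
      · intro w _ hw2
        by_cases haw : a ∈ w.head :: w.tail
        · refine ⟨x * z, by rw [mul_assoc, hz, hx], hxz, ?_⟩
          intro c hc
          have hcb : c ≠ b := by
            rintro rfl
            exact hw2 a haw c hc e.symm
          split_ifs with h5
          · rw [← mul_assoc, hi]
          · rw [mul_left_comm, hi]
        · refine ⟨y * z, by rw [mul_assoc, hz, hy], hyz, ?_⟩
          intro c hc
          have hca : c ≠ a := by
            rintro rfl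
            exact haw hc
          split_ifs with h5 h6
          · exact absurd h5 hca
          · rw [← mul_assoc, hi]
          · rw [mul_left_comm, hi]
      · refine Or.inr ⟨a, ha, b, hb', hane, hbne, ?_⟩
        simp only [if_true]
        rw [if_neg (Ne.symm hab)]
        exact hxy
    · obtain ⟨x, y, hx, hy, hx', hy', hxy⟩ := h2 hL2
      refine build hi' hi φ w0 W hW t hout
        (fun c => if φ (FreeSemigroup.of c) * φ (FreeSemigroup.of a) = φ w0 then y else x)
        ?_ ?_ ?_
      · intro c _ _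
        split_ifs
        · exact hy
        · exact hx
      · intro w hw1 hw2
        by_cases hex : ∃ c ∈ w.head :: w.tail,
            φ (FreeSemigroup.of c) * φ (FreeSemigroup.of a) ≠ φ w0
        · obtain ⟨c, hc, hca⟩ := hex
          refine ⟨x, hx, hx', ?_⟩
          intro c' hc'
          have h4 : φ (FreeSemigroup.of c') * φ (FreeSemigroup.of a) ≠ φ w0 := by
            intro h
            apply hL3
            refine ⟨φ (FreeSemigroup.of a), φ (FreeSemigroup.of c'), φ (FreeSemigroup.of c),
              habs a ha, hw1 c' hc', hw1 c hc, ?_, ?_, ?_⟩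
            · rw [mul_comm]; exact h
            · rw [mul_comm]; exact hca
            · exact hw2 c' hc' c hc
          rw [if_neg h4, hi]
        · push Not at hex
          refine ⟨y, hy, hy', ?_⟩
          intro c hc
          rw [if_pos (hex c hc), hi]
      · refine Or.inr ⟨a, ha, b, hb', hane, hbne, ?_⟩
        have e1 : ¬ φ (FreeSemigroup.of a) * φ (FreeSemigroup.of a) = φ w0 := by
          rw [hi']; exact hane
        have e2 : φ (FreeSemigroup.of b) * φ (FreeSemigroup.of a) = φ w0 := by
          rw [mul_comm]; exact e.symm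
        rw [if_neg e1, if_pos e2]
        exact hxy

/-! ### Varieties of semilattices of breadth at most two -/

/-- `T` is a semilattice of breadth at most two. -/
def BreadthTwo (T : Type u) [Semigroup T] : Prop :=
  (∀ x y : T, x * y = y * x) ∧ (∀ x : T, x * x = x) ∧
    ∀ x y z : T, x * y * z = x * y ∨ x * y * z = y * z ∨ x * y * z = x * z

/-- The types occurring in a class. -/
def types (K : SemigroupClass.{u}) (o : Bool) (n : Fin 4) : Prop :=
  ∃ (T : Type u) (_ : Semigroup T), K T ∧ ∃ t : T, (o = true → ∃ y, y * t ≠ t) ∧ Lev t n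

lemma fails_of_types {K : SemigroupClass.{u}} {T' : Type u} [Semigroup T']
    (hT' : BreadthTwo T') (hK : ∀ (T : Type u) [Semigroup T], K T → BreadthTwo T)
    (htypes : ∀ (t : T') (o : Bool) (n : Fin 4), (o = true → ∃ y, y * t ≠ t) → Lev t n →
      types K o n) (i : IdInclusion) (hi : ¬ Satisfies T' i) :
    ∃ (T : Type u) (_ : Semigroup T), K T ∧ ¬ Satisfies T i := by
  classical
  obtain ⟨hc', hi', hb'⟩ := hT'
  rw [Satisfies] at hi
  push Not at hi
  obtain ⟨φ, hφ⟩ := hi
  letI : CommSemigroup T' := { (inferInstance : Semigroup T') with mul_comm := hc' }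
  have main : ∀ n : Fin 4, Lev (φ i.word) n → (∀ m : Fin 4, n < m → ¬ Lev (φ i.word) m) →
      ∃ (T : Type u) (_ : Semigroup T), K T ∧ ¬ Satisfies T i := by
    intro n hn hmax
    obtain ⟨T, _, hKT, t, hot, ht⟩ := htypes (φ i.word) (decide (∃ y, y * φ i.word ≠ φ i.word)) n
      (fun h => of_decide_eq_true h) hn
    obtain ⟨hc, hidem, -⟩ := hK T hKT
    refine ⟨T, _, hKT, ?_⟩
    letI : CommSemigroup T := { (inferInstance : Semigroup T) with mul_comm := hc }
    have hlow : ∀ m : Fin 4, m ≤ n → Lev t m := by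
      intro m hm
      fin_cases n
      · fin_cases m
        · exact trivial
        · exact absurd hm (by decide)
        · exact absurd hm (by decide)
        · exact absurd hm (by decide)
      · fin_cases m
        · exact trivial
        · exact ht
        · exact absurd hm (by decide)
        · exact absurd hm (by decide)
      · fin_cases m
        · exact trivial
        · exact lev21 ht
        · exact ht
        · exact absurd hm (by decide)
      · fin_cases m
        · exact trivial
        · exact lev21 (lev32 ht)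
        · exact lev32 ht
        · exact ht
    have hall : ∀ m : Fin 4, Lev (φ i.word) m → Lev t m := by
      intro m hm
      apply hlow
      by_contra hcon
      exact hmax m (not_le.1 hcon) hm
    obtain ⟨ψ, hψ⟩ := transfer hi' hb' hidem φ i.word i.set hφ t
      (fun h => hot (decide_eq_true h)) (hall 1) (hall 2) (hall 3)
    intro hsat
    obtain ⟨v, hv, e⟩ := hsat ψ
    exact hψ v hv e
  by_cases h3 : Lev (φ i.word) 3
  · exact main 3 h3 (fun m hm => absurd hm (by omega))
  · by_cases h2 : Lev (φ i.word) 2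
    · refine main 2 h2 (fun m hm => ?_)
      have : m = 3 := by omega
      rw [this]; exact h3
    · by_cases h1 : Lev (φ i.word) 1
      · refine main 1 h1 (fun m hm => ?_)
        have : m = 2 ∨ m = 3 := by omega
        rcases this with h | h <;> rw [h]
        · exact h2
        · exact h3
      · refine main 0 trivial (fun m hm => ?_)
        have : m = 1 ∨ m = 2 ∨ m = 3 := by omega
        rcases this with h | h | h <;> rw [h]
        · exact h1
        · exact h2
        · exact h3

theorem finite_of_breadthTwo (V : SemigroupClass.{u})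
    (hV : ∀ (T : Type u) [Semigroup T], V T → BreadthTwo T) :
    {K : SemigroupClass.{u} | IsInclusiveVariety K ∧ Sub K V}.Finite := by
  apply Set.Finite.of_injOn (f := fun K => types K) (t := Set.univ)
    (fun _ _ => Set.mem_univ _) _ Set.finite_univ
  have key : ∀ K K' : SemigroupClass.{u}, IsInclusiveVariety K → Sub K V → Sub K' V →
      types K' = types K → Sub K' K := by
    rintro K K' ⟨E, hE⟩ hKV hK'V htypes T' _ hT'
    rw [hE]
    intro i hi
    by_contra hcon
    obtain ⟨T, _, hT, hTi⟩ := fails_of_types (K := K) (hV T' (hK'V T' hT'))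
      (fun T _ hT => hV T (hKV T hT))
      (fun t o n h1 h2 => by
        rw [← htypes]
        exact ⟨T', _, hT', t, h1, h2⟩) i hcon
    exact hTi ((hE T).1 hT i hi)
  rintro K ⟨hK, hKV⟩ K' ⟨hK', hK'V⟩ h
  have h' : types K = types K' := h
  funext T _
  apply propext
  constructor
  · exact fun hT => key K' K hK' hK'V hKV h' T hT
  · exact fun hT => key K K' hK hKV hK'V h'.symm T hT

/-! ### Semilattices with identity -/

/-- The inclusive variety generated by a class of semigroups. -/
def generatedByClass (M : SemigroupClass.{u}) : SemigroupClass.{u} :=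
  fun T _ => ∀ i : IdInclusion, (∀ (S : Type u) [Semigroup S], M S → Satisfies S i) →
    Satisfies T i

lemma isInclusiveVariety_generated (M : SemigroupClass.{u}) :
    IsInclusiveVariety (generatedByClass M) :=
  ⟨{i | ∀ (S : Type u) [Semigroup S], M S → Satisfies S i}, fun _ _ => Iff.rfl⟩

lemma cube_embeds {S : Type u} [Semigroup S] (hc : ∀ x y : S, x * y = y * x)
    (hi : ∀ x : S, x * x = x) (e : S) (he : ∀ x : S, e * x = x) (x y z : S)
    (h1 : x * y * z ≠ x * y) (h2 : x * y * z ≠ y * z) (h3 : x * y * z ≠ x * z) :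
    ∃ f : Cube →ₙ* S, Function.Injective f := by
  classical
  letI : CommSemigroup S := { (inferInstance : Semigroup S) with mul_comm := hc }
  have he' : ∀ x : S, x * e = x := fun x => by rw [mul_comm]; exact he x
  let c : S → Fin 3 → Cube → S := fun s k A => if k ∈ A.carrier then e else s
  have hcmul : ∀ s k A B, c s k (A * B) = c s k A * c s k B := by
    intro s k A B
    have hAB : k ∈ (A * B).carrier ↔ k ∈ A.carrier ∧ k ∈ B.carrier := Finset.mem_inter
    simp only [c]
    by_cases hA : k ∈ A.carrier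
    · by_cases hB : k ∈ B.carrier
      · rw [if_pos (hAB.2 ⟨hA, hB⟩), if_pos hA, if_pos hB, he]
      · rw [if_neg (fun h => hB (hAB.1 h).2), if_pos hA, if_neg hB, he]
    · by_cases hB : k ∈ B.carrier
      · rw [if_neg (fun h => hA (hAB.1 h).1), if_neg hA, if_pos hB, he']
      · rw [if_neg (fun h => hA (hAB.1 h).1), if_neg hA, if_neg hB, hi]
  have hcabs : ∀ s k A, c s k A * s = s := by
    intro s k A
    simp only [c]
    split_ifs
    · exact he s
    · exact hi s
  refine ⟨⟨fun A => c x 0 A * c y 1 A * c z 2 A, ?_⟩, ?_⟩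
  · intro A B
    simp only [hcmul]
    simp only [mul_assoc, mul_comm, mul_left_comm]
  · intro A B hAB
    have hAB' : c x 0 A * c y 1 A * c z 2 A = c x 0 B * c y 1 B * c z 2 B := hAB
    have k0 : ∀ D : Cube, c x 0 D * c y 1 D * c z 2 D * (y * z) = c x 0 D * (y * z) := by
      intro D
      calc c x 0 D * c y 1 D * c z 2 D * (y * z)
          = c x 0 D * ((c y 1 D * y) * (c z 2 D * z)) := by
            simp only [mul_assoc, mul_comm, mul_left_comm]
        _ = c x 0 D * (y * z) := by rw [hcabs, hcabs]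
    have k1 : ∀ D : Cube, c x 0 D * c y 1 D * c z 2 D * (x * z) = c y 1 D * (x * z) := by
      intro D
      calc c x 0 D * c y 1 D * c z 2 D * (x * z)
          = c y 1 D * ((c x 0 D * x) * (c z 2 D * z)) := by
            simp only [mul_assoc, mul_comm, mul_left_comm]
        _ = c y 1 D * (x * z) := by rw [hcabs, hcabs]
    have k2 : ∀ D : Cube, c x 0 D * c y 1 D * c z 2 D * (x * y) = c z 2 D * (x * y) := by
      intro D
      calc c x 0 D * c y 1 D * c z 2 D * (x * y)
          = c z 2 D * ((c x 0 D * x) * (c y 1 D * y)) := by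
            simp only [mul_assoc, mul_comm, mul_left_comm]
        _ = c z 2 D * (x * y) := by rw [hcabs, hcabs]
    have d0 : ∀ C D : Cube, c x 0 C * (y * z) = c x 0 D * (y * z) →
        (0 : Fin 3) ∈ C.carrier → (0 : Fin 3) ∈ D.carrier := by
      intro C D h hC
      by_contra hD
      simp only [c] at h
      rw [if_pos hC, if_neg hD, he, ← mul_assoc] at h
      exact h2 h.symm
    have d1 : ∀ C D : Cube, c y 1 C * (x * z) = c y 1 D * (x * z) →
        (1 : Fin 3) ∈ C.carrier → (1 : Fin 3) ∈ D.carrier := by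
      intro C D h hC
      by_contra hD
      simp only [c] at h
      rw [if_pos hC, if_neg hD, he, mul_left_comm, ← mul_assoc] at h
      exact h3 h.symm
    have d2 : ∀ C D : Cube, c z 2 C * (x * y) = c z 2 D * (x * y) →
        (2 : Fin 3) ∈ C.carrier → (2 : Fin 3) ∈ D.carrier := by
      intro C D h hC
      by_contra hD
      simp only [c] at h
      rw [if_pos hC, if_neg hD, he, mul_comm z (x * y)] at h
      exact h1 h.symm
    have e0 : c x 0 A * (y * z) = c x 0 B * (y * z) := by rw [← k0, ← k0, hAB']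
    have e1 : c y 1 A * (x * z) = c y 1 B * (x * z) := by rw [← k1, ← k1, hAB']
    have e2 : c z 2 A * (x * y) = c z 2 B * (x * y) := by rw [← k2, ← k2, hAB']
    apply Cube.ext
    ext k
    fin_cases k
    · exact ⟨d0 A B e0, d0 B A e0.symm⟩
    · exact ⟨d1 A B e1, d1 B A e1.symm⟩
    · exact ⟨d2 A B e2, d2 B A e2.symm⟩

theorem result (M : SemigroupClass.{u})
    (hM : ∀ (S : Type u) [Semigroup S], M S →
      (∀ x y : S, x * y = y * x) ∧ (∀ x : S, x * x = x) ∧ ∃ e : S, ∀ x : S, e * x = x) :
    ({K : SemigroupClass.{u} | IsInclusiveVariety K ∧ Sub K (generatedByClass M)}.Countable ↔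
      ∀ (S : Type u) [Semigroup S], M S →
        ∀ x y z : S, x * y * z = x * y ∨ x * y * z = y * z ∨ x * y * z = x * z) ∧
    ({K : SemigroupClass.{u} | IsInclusiveVariety K ∧ Sub K (generatedByClass M)}.Countable →
      {K : SemigroupClass.{u} | IsInclusiveVariety K ∧ Sub K (generatedByClass M)}.Finite) := by
  have hfin : (∀ (S : Type u) [Semigroup S], M S →
        ∀ x y z : S, x * y * z = x * y ∨ x * y * z = y * z ∨ x * y * z = x * z) →
      {K : SemigroupClass.{u} | IsInclusiveVariety K ∧ Sub K (generatedByClass M)}.Finite := by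
    intro hB
    apply finite_of_breadthTwo
    intro T _ hT
    refine ⟨?_, ?_, ?_⟩
    · intro x y
      have h := hT ⟨FreeSemigroup.of 0 * FreeSemigroup.of 1,
        {FreeSemigroup.of 1 * FreeSemigroup.of 0}⟩ (fun S _ hS φ =>
          ⟨_, rfl, by rw [map_mul, map_mul]; exact (hM S hS).1 _ _⟩)
      obtain ⟨v, hv, e⟩ := h (FreeSemigroup.lift fun k => if k = 0 then x else y)
      rw [Set.mem_singleton_iff.1 hv] at e
      simpa using e
    · intro x
      have h := hT ⟨FreeSemigroup.of 0 * FreeSemigroup.of 0, {FreeSemigroup.of 0}⟩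
        (fun S _ hS φ => ⟨_, rfl, by rw [map_mul]; exact (hM S hS).2.1 _⟩)
      obtain ⟨v, hv, e⟩ := h (FreeSemigroup.lift fun _ => x)
      rw [Set.mem_singleton_iff.1 hv] at e
      simpa using e
    · intro x y z
      have h := hT ⟨FreeSemigroup.of 0 * FreeSemigroup.of 1 * FreeSemigroup.of 2,
        {w | w = FreeSemigroup.of 0 * FreeSemigroup.of 1 ∨
          w = FreeSemigroup.of 1 * FreeSemigroup.of 2 ∨
          w = FreeSemigroup.of 0 * FreeSemigroup.of 2}⟩
        (fun S _ hS φ => by
          rcases hB S hS (φ (FreeSemigroup.of 0)) (φ (FreeSemigroup.of 1))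
            (φ (FreeSemigroup.of 2)) with h | h | h
          · exact ⟨_, Or.inl rfl, by rw [map_mul, map_mul]; exact h⟩
          · exact ⟨_, Or.inr (Or.inl rfl), by rw [map_mul, map_mul, map_mul]; exact h⟩
          · exact ⟨_, Or.inr (Or.inr rfl), by rw [map_mul, map_mul, map_mul]; exact h⟩)
      obtain ⟨v, hv, e⟩ := h (FreeSemigroup.lift fun k => if k = 0 then x else
        if k = 1 then y else z)
      rcases hv with rfl | rfl | rfl
      · left; simpa using e
      · right; left; simpa using e
      · right; right; simpa using e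
  have hcount : {K : SemigroupClass.{u} | IsInclusiveVariety K ∧
        Sub K (generatedByClass M)}.Countable → ∀ (S : Type u) [Semigroup S], M S →
        ∀ x y z : S, x * y * z = x * y ∨ x * y * z = y * z ∨ x * y * z = x * z := by
    intro hc S _ hS x y z
    by_contra hcon
    push Not at hcon
    obtain ⟨h1, h2, h3⟩ := hcon
    obtain ⟨h4, h5, e, he⟩ := hM S hS
    obtain ⟨f, hf⟩ := cube_embeds h4 h5 e he x y z h1 h2 h3
    refine (RealChain.result (generatedByClass M) (isInclusiveVariety_generated M) ?_).2 hc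
    intro i hi φ
    obtain ⟨v, hv, ev⟩ := hi S hS ((f.comp (MulEquiv.ulift (α := Cube)).toMulHom).comp φ)
    exact ⟨v, hv, (MulEquiv.ulift (α := Cube)).injective (hf ev)⟩
  exact ⟨⟨hcount, fun h => (hfin h).countable⟩, fun h => hfin (hcount h)⟩

end Pool.Agent.Results.MP_999024_al.Dichotomy
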